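import Pool.Agent.H238Z.TensMem

/-!
# Tensor Singular Value is complete for the existential theory of the reals

The problem definitions are in `Pool.Agent.H238Z.TensDefs`; the complexity classes are in
`Pool.Agent.NPC.Defs` and `Pool.Agent.ER.Defs`.
-/

namespace Pool.Agent.Results.MP_acf5a6_lc.Complete

open Pool.Agent.NPC Pool.Agent.NPC.ER Pool.Agent.H238Z.Tens

/-- TSV is `∃ℝ`-complete. -/
theorem result : ERComplete (lang TSV) := ⟨mem_tsv, hard_tsv⟩

end Pool.Agent.Results.MP_acf5a6_lc.Complete
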